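import Mathlib
import Pool.Agent.W296.NLC

set_option autoImplicit false

/-!
# A non-evasive simplicial 4-ball that is not locally constructible

The definitions (`IsCx`, `realization`, `IsBall`, `IsLC`, `NonEvasive`) are in
`Pool.Agent.H933R3.Defs`.  In `IsLC` the intermediate complexes need not be simplicial complexes
and simplices may be attached at any time, so that `¬ IsLC` is the strongest possible form.
-/

namespace Pool.Agent.Results.MP_9638d9_co.NonevasiveNotLC

open Pool.Agent.H933R3

/-- There is a non-evasive simplicial 4-ball that is not locally constructible. -/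
theorem result : ∃ (n : ℕ) (K : Finset (Finset (Fin n))),
    IsCx K ∧ IsBall 4 K ∧ NonEvasive K ∧ ¬ IsLC 4 K :=
  ⟨13, cx 13 Pool.Agent.W296.NLC.Kl, isCx_cx (by decide), Pool.Agent.W296.NLC.isBall_K,
    Pool.Agent.W296.NLC.nonEvasive_K, Pool.Agent.W296.NLC.not_LC⟩

end Pool.Agent.Results.MP_9638d9_co.NonevasiveNotLC
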